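import Pool.Agent.PFC.StmtsB1

set_option autoImplicit false

/-!
PFC row CAS: the Casimir identity.
-/

namespace Pool.Agent.PFC.H77

open Pool.Agent.PFC.B1

theorem cas : CasStmt := by
  intro R A I X _ _ _ _ _ _ c B x
  have h1 : ∀ i, B (x * c.b i) (c.b' i) =
      ∑ j, c.lam (c.b' j * x * c.b i) • B (c.b j) (c.b' i) := by
    intro i
    conv_lhs => rw [← c.h1 (x * c.b i)]
    rw [map_sum, LinearMap.sum_apply]
    apply Finset.sum_congr rfl
    intro j _
    rw [map_smul, LinearMap.smul_apply, mul_assoc]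
  have h2 : ∀ j, B (c.b j) (c.b' j * x) =
      ∑ i, c.lam (c.b' j * x * c.b i) • B (c.b j) (c.b' i) := by
    intro j
    conv_lhs => rw [← c.h2 (c.b' j * x)]
    rw [map_sum]
    apply Finset.sum_congr rfl
    intro i _
    rw [map_smul]
  rw [Finset.sum_congr rfl fun i _ => h1 i, Finset.sum_congr rfl fun j _ => h2 j,
    Finset.sum_comm]

end Pool.Agent.PFC.H77
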