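import Pool.Agent.PFC.StmtsB5a

set_option autoImplicit false

/-!
PFC row TRSa: the sum of an equivariant family over a set without fixed points.
-/

open scoped BigOperators TensorProduct

noncomputable section

namespace Pool.Agent.PFC.B5a.H77

open Pool.Agent.PFC Pool.Agent.PFC.B5a MulAction

theorem trs : TrsStmt := by
  intro F H M Ω _ _ _ _ _ _ ρ P W T hT hT2 hW
  classical
  induction hn : T.card using Nat.strong_induction_on generalizing T with
  | _ n ih =>
    rcases T.eq_empty_or_nonempty with rfl | ⟨ω, hω⟩
    · rw [Finset.sum_empty]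
      exact Submodule.zero_mem _
    · obtain ⟨S, hS, hinj, hsur⟩ := exTv P ω
      let O : Finset Ω := S.image (fun x => x • ω)
      have hO : O ⊆ T := by
        intro y hy
        obtain ⟨x, hx, rfl⟩ := Finset.mem_image.1 hy
        exact hT ω hω x (hS.1 x hx)
      have hOst : ∀ y ∈ O, ∀ h ∈ P, h • y ∈ O := by
        intro y hy h hh
        obtain ⟨x, hx, rfl⟩ := Finset.mem_image.1 hy
        obtain ⟨z, hz, hz2⟩ := hsur (h * x) (P.mul_mem hh (hS.1 x hx))
        refine Finset.mem_image.2 ⟨z, hz, ?_⟩
        show z • ω = h • x • ω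
        rw [hz2, mul_smul]
      have hωO : ω ∈ O := by
        obtain ⟨z, hz, hz2⟩ := hsur 1 P.one_mem
        refine Finset.mem_image.2 ⟨z, hz, ?_⟩
        show z • ω = ω
        rw [hz2, one_smul]
      have hrest : ∑ ω ∈ T \ O, W ω ∈ BK ρ P := by
        refine ih (T \ O).card ?_ (T \ O) ?_ ?_ rfl
        · rw [← hn]
          exact Finset.card_lt_card (Finset.sdiff_ssubset hO ⟨ω, hωO⟩)
        · intro y hy h hh
          rw [Finset.mem_sdiff] at hy ⊢
          refine ⟨hT y hy.1 h hh, fun hc => hy.2 ?_⟩
          have := hOst _ hc h⁻¹ (P.inv_mem hh)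
          rwa [inv_smul_smul] at this
        · intro y hy
          exact hT2 y (Finset.mem_sdiff.1 hy).1
      have horb : ∑ ω ∈ O, W ω ∈ BK ρ P := by
        have h1 : ∑ ω ∈ O, W ω = ∑ x ∈ S, ρ x (W ω) := by
          rw [Finset.sum_image (by
            intro x hx y hy hxy
            exact hinj x hx y hy hxy)]
          refine Finset.sum_congr rfl ?_
          intro x hx
          exact hW x (hS.1 x hx) ω
        rw [h1]
        refine Submodule.subset_span ?_
        refine ⟨P ⊓ stabilizer H ω, S, W ω, ?_, hS, ?_, rfl⟩
        · refine lt_of_le_of_ne inf_le_left ?_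
          intro heq
          apply hT2 ω hω
          intro h hh
          have : h ∈ P ⊓ stabilizer H ω := by
            rw [heq]
            exact hh
          exact mem_stabilizer_iff.1 (Subgroup.mem_inf.1 this).2
        · intro h hh
          have hh' := Subgroup.mem_inf.1 hh
          rw [← hW h hh'.1, mem_stabilizer_iff.1 hh'.2]
      rw [← Finset.sum_sdiff hO]
      exact Submodule.add_mem _ hrest horb

end Pool.Agent.PFC.B5a.H77
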