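import Pool.Agent.PFC.StmtsB4a
import Pool.Agent.PFC.B4.Key

set_option autoImplicit false

/-!
PFC row CMP: compatibility of the Brauer kernels.
-/

namespace Pool.Agent.PFC.H77

open Pool.Agent.PFC

theorem cmp : CmpStmt := by
  intro ℓ _ F H M _ _ _ _ _ _ ρ X hX R P hP hRP m hm hmR
  obtain ⟨Ω, _, _, b, c, hfr, -⟩ := hX
  have hR : IsPGroup ℓ R := hP.to_le hRP
  rw [frame_iff hfr P hP hm]
  intro ω hω
  exact frame_BK hfr R hR hmR ω fun h hh => hω h (hRP hh)

end Pool.Agent.PFC.H77
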