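import Pool.Agent.PFC.StmtsB5b
import Pool.Agent.PFC.B4.Key

set_option autoImplicit false

/-!
PFC row HGP: the complement of the group algebra is a projective bimodule.
-/

open scoped BigOperators

noncomputable section

namespace Pool.Agent.PFC.H77

open Pool.Agent.PFC

/-- transport of Brauer kernels along an injective homomorphism -/
theorem BK_map {F G H M N : Type} [Field F] [Group G] [Group H] [AddCommGroup M] [Module F M]
    [AddCommGroup N] [Module F N] (ρ : G →* (M →ₗ[F] M)) (σ : H →* (N →ₗ[F] N)) (j : G →* H)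
    (hj : Function.Injective j) (Θ : M →ₗ[F] N) (hΘ : ∀ g m, Θ (ρ g m) = σ (j g) (Θ m))
    (R : Subgroup G) (z : M) (hz : z ∈ BK ρ R) : Θ z ∈ BK σ (R.map j) := by
  classical
  unfold BK at hz
  induction hz using Submodule.span_induction with
  | mem n hn =>
    obtain ⟨P', S, m, hlt, hS, hm, rfl⟩ := hn
    apply Submodule.subset_span
    refine ⟨P'.map j, S.image j, Θ m, ?_, ⟨?_, ?_⟩, ?_, ?_⟩
    · exact lt_of_le_of_ne (Subgroup.map_mono hlt.le)
        (fun h => hlt.ne (Subgroup.map_injective hj h))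
    · intro s hs
      obtain ⟨s0, hs0, rfl⟩ := Finset.mem_image.1 hs
      exact Subgroup.mem_map_of_mem j (hS.1 s0 hs0)
    · rintro p ⟨p0, hp0, rfl⟩
      obtain ⟨s0, ⟨hs0, hs1⟩, hs2⟩ := hS.2 p0 hp0
      refine ⟨j s0, ⟨Finset.mem_image_of_mem j hs0, ?_⟩, ?_⟩
      · rw [← map_inv, ← map_mul]
        exact Subgroup.mem_map_of_mem j hs1
      · rintro s ⟨hs, hs'⟩
        obtain ⟨s1, hs1', rfl⟩ := Finset.mem_image.1 hs
        rw [← map_inv, ← map_mul, Subgroup.mem_map_iff_mem hj] at hs'
        rw [hs2 s1 ⟨hs1', hs'⟩]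
    · rintro h ⟨v, hv, rfl⟩
      rw [← hΘ, hm v hv]
    · rw [map_sum, Finset.sum_image (fun x _ y _ h => hj h)]
      exact Finset.sum_congr rfl fun s _ => hΘ s m
  | zero =>
    rw [map_zero]
    exact Submodule.zero_mem _
  | add a b _ _ ha hb =>
    rw [map_add]
    exact Submodule.add_mem _ ha hb
  | smul r a _ ha =>
    rw [map_smul]
    exact Submodule.smul_mem _ _ ha

theorem exσ {F G A : Type} [Field F] [Group G] [Ring A] [Algebra F A] (γ : G →* A)
    (P : Submodule F A) (hP : ∀ (g h : G), ∀ x ∈ P, γ g * x * γ h ∈ P) :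
    ∃ σ : G × G →* (P →ₗ[F] P), ∀ w (x : P), ((σ w x : P) : A) = γ w.1 * x * γ w.2⁻¹ := by
  refine ⟨{ toFun := fun w => LinearMap.codRestrict P
              (((LinearMap.mulLeft F (γ w.1)).comp (LinearMap.mulRight F (γ w.2⁻¹))).comp
                P.subtype) (fun x => ?_), map_one' := ?_, map_mul' := ?_ }, fun w x => ?_⟩
  · show γ w.1 * ((x : A) * γ w.2⁻¹) ∈ P
    rw [← mul_assoc]
    exact hP _ _ _ x.2
  · apply LinearMap.ext
    intro x
    apply Subtype.ext
    show γ 1 * ((x : A) * γ 1⁻¹) = x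
    rw [inv_one, map_one, one_mul, mul_one]
  · intro w w'
    apply LinearMap.ext
    intro x
    apply Subtype.ext
    show γ (w.1 * w'.1) * ((x : A) * γ (w.2 * w'.2)⁻¹) =
      γ w.1 * (γ w'.1 * ((x : A) * γ w'.2⁻¹) * γ w.2⁻¹)
    rw [mul_inv_rev, map_mul, map_mul]
    simp only [mul_assoc]
  · show γ w.1 * ((x : A) * γ w.2⁻¹) = _
    rw [mul_assoc]

section cp

variable {F G A : Type} [Field F] [Group G] [Fintype G] [Ring A] [Algebra F A]

/-- `cpr` as a linear map -/
def cpL (γ : G →* A) (lam : A →ₗ[F] F) : A →ₗ[F] A where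
  toFun := cpr F γ lam
  map_add' := by
    intro x y
    unfold cpr
    simp only [mul_add, map_add, add_smul, Finset.sum_add_distrib]
    abel
  map_smul' := by
    intro c x
    unfold cpr
    simp only [mul_smul_comm, map_smul, smul_eq_mul, RingHom.id_apply, smul_sub,
      Finset.smul_sum, smul_smul]

variable (γ : G →* A) (lam : A →ₗ[F] F)

theorem cpr_left (h : G) (a : A) : cpr F γ lam (γ h * a) = γ h * cpr F γ lam a := by
  unfold cpr
  rw [mul_sub, Finset.mul_sum]
  congr 1
  rw [← Equiv.sum_comp (Equiv.mulLeft h)]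
  apply Finset.sum_congr rfl
  intro g _
  rw [Equiv.coe_mulLeft, mul_smul_comm, ← map_mul, ← mul_assoc, ← map_mul]
  have : (h * g)⁻¹ * h = g⁻¹ := by group
  rw [this]

theorem cpr_right (hl : ∀ g a, lam (γ g * a) = lam (a * γ g)) (h : G) (a : A) :
    cpr F γ lam (a * γ h) = cpr F γ lam a * γ h := by
  unfold cpr
  rw [sub_mul, Finset.sum_mul]
  congr 1
  rw [← Equiv.sum_comp (Equiv.mulRight h)]
  apply Finset.sum_congr rfl
  intro g _
  rw [Equiv.coe_mulRight, smul_mul_assoc, ← map_mul, ← mul_assoc, ← hl h, ← mul_assoc, ← map_mul]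
  have : h * (g * h)⁻¹ = g⁻¹ := by group
  rw [this]

theorem cpr_self (h1 : lam 1 = 1) (h2 : ∀ g, g ≠ 1 → lam (γ g) = 0) (h : G) :
    cpr F γ lam (γ h) = 0 := by
  unfold cpr
  rw [Finset.sum_eq_single h]
  · rw [← map_mul, inv_mul_cancel, map_one, h1, one_smul, sub_self]
  · intro g _ hg
    rw [← map_mul, h2, zero_smul]
    intro h3
    apply hg
    rw [inv_mul_eq_one] at h3
    exact h3
  · intro h3
    exact absurd (Finset.mem_univ h) h3

theorem cpr_idem (h1 : lam 1 = 1) (h2 : ∀ g, g ≠ 1 → lam (γ g) = 0) (a : A) :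
    cpr F γ lam (cpr F γ lam a) = cpr F γ lam a := by
  have h3 : cpr F γ lam (cpr F γ lam a) =
      cpL γ lam a - cpL γ lam (∑ g, lam (γ g⁻¹ * a) • γ g) := by
    rw [← map_sub]
    rfl
  rw [h3, map_sum]
  have h4 : ∀ g, cpL γ lam (lam (γ g⁻¹ * a) • γ g) = 0 := by
    intro g
    rw [map_smul]
    have : cpL γ lam (γ g) = 0 := cpr_self γ lam h1 h2 g
    rw [this, smul_zero]
  rw [Finset.sum_congr rfl fun g _ => h4 g, Finset.sum_const_zero, sub_zero]
  rfl

end cp

theorem hgp (hprj : PrjStmt) (hpsm : PsmStmt) (hhgx : HgxStmt) : HgpStmt := by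
  intro F V E A _ _ _ _ _ _ _ ℓ _ φ e0 _ γ hctx hPS hSpn lam l1 l2 l3
  have hfact : Fact ℓ.Prime := ⟨hctx.pr⟩
  -- the image of the projection
  set cp := cpL γ lam with hcp
  have cpdef : ∀ a, cp a = cpr F γ lam a := fun _ => rfl
  set P : Submodule F A := LinearMap.range cp with hPdef
  have hidem : ∀ a, cp (cp a) = cp a := fun a => cpr_idem γ lam l1 l2 a
  have hPx : ∀ x ∈ P, cp x = x := by
    rintro x ⟨y, rfl⟩
    exact hidem y
  have hlr : ∀ (g h : V ⋊[φ] E) (a : A), cp (γ g * a * γ h) = γ g * cp a * γ h := by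
    intro g h a
    rw [cpdef, cpr_right γ lam l3, cpr_left γ lam]
    rfl
  have hP : ∀ (g h : V ⋊[φ] E), ∀ x ∈ P, γ g * x * γ h ∈ P := by
    rintro g h x ⟨y, rfl⟩
    exact ⟨γ g * y * γ h, hlr g h y⟩
  obtain ⟨σ, hσ⟩ := exσ (F := F) γ P hP
  set p : A →ₗ[F] P := LinearMap.codRestrict P cp (fun x => ⟨x, rfl⟩) with hp
  have hpx : ∀ a, ((p a : P) : A) = cp a := fun _ => rfl
  have hpi : ∀ x : P, p (x : A) = x := by
    intro x
    apply Subtype.ext
    rw [hpx]
    exact hPx _ x.2
  have hpσ : ∀ (w : (V ⋊[φ] E) × (V ⋊[φ] E)) (a : A), p (γ w.1 * a * γ w.2⁻¹) = σ w (p a) := by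
    intro w a
    apply Subtype.ext
    rw [hσ, hpx, hpx, hlr]
  -- the representation of V × V
  set ι : V × V →* (V ⋊[φ] E) × (V ⋊[φ] E) :=
    MonoidHom.prodMap SemidirectProduct.inl SemidirectProduct.inl with hι
  have hιinj : Function.Injective ι := by
    intro x y h
    have h1 := congrArg Prod.fst h
    have h2 := congrArg Prod.snd h
    exact Prod.ext (SemidirectProduct.inl_injective h1) (SemidirectProduct.inl_injective h2)
  have hbi : ∀ (w : V × V) (a : A), bi F (γ.comp SemidirectProduct.inl) w a =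
      γ (ι w).1 * a * γ (ι w).2⁻¹ := by
    intro w a
    show γ (SemidirectProduct.inl w.1) * (a * γ (SemidirectProduct.inl w.2⁻¹)) = _
    rw [← mul_assoc, map_inv]
    rfl
  have hPSσ : PS (fun K => ∃ (e : E) (R : Subgroup V), K = tw (φ e).toMonoidHom R)
      (rst σ ι) := by
    refine hpsm F (V × V) A P (bi F (γ.comp SemidirectProduct.inl)) (rst σ ι) _ P.subtype p
      ?_ ?_ ?_ hPS
    · intro w x
      rw [hbi]
      exact hσ (ι w) x
    · intro w a
      rw [hbi]
      exact hpσ (ι w) a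
    · intro x
      exact hpi x
  have hpg : IsPGroup ℓ (V × V) := by
    rw [IsPGroup.iff_card]
    obtain ⟨n, hn⟩ := (IsPGroup.iff_card).1 hctx.pg
    exact ⟨n + n, by rw [Nat.card_prod, hn, pow_add]⟩
  have hHig : Hig (rst σ ι) := by
    refine hprj ℓ F (V × V) P (rst σ ι) _ hpg (fun x y => mul_comm x y) hPSσ ?_
    intro C hC x hx
    have hCp : IsPGroup ℓ C := IsPGroup.of_card (n := 1) (by rw [hC, pow_one])
    obtain ⟨Ω, _, _, b, c, hfr, hst⟩ := hPSσ
    by_cases hω : ∃ ω : Ω, ∀ h ∈ C, h • ω = ω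
    · obtain ⟨ω, hω⟩ := hω
      obtain ⟨e, R, hR⟩ := hst ω
      set j : V →* V × V := (φ e).toMonoidHom.prod (MonoidHom.id V) with hj
      have hjinj : Function.Injective j := by
        intro u v h
        exact congrArg Prod.snd h
      have hCle : C ≤ j.range := by
        intro h hh
        have h1 : h ∈ MulAction.stabilizer (V × V) ω := MulAction.mem_stabilizer_iff.2 (hω h hh)
        rw [hR] at h1
        obtain ⟨u, _, hu⟩ := h1
        exact ⟨u, hu⟩
      set R' : Subgroup V := C.comap j with hR'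
      have hmap : R'.map j = C := Subgroup.map_comap_eq_self hCle
      have hne : R' ≠ ⊥ := by
        intro h
        rw [h, Subgroup.map_bot] at hmap
        rw [← hmap, Subgroup.card_bot] at hC
        exact hctx.pr.one_lt.ne hC
      have hcomm : ∀ v : V, γ (SemidirectProduct.inl (φ e v)) * γ (SemidirectProduct.inr e) =
          γ (SemidirectProduct.inr e) * γ (SemidirectProduct.inl v) := by
        intro v
        rw [← map_mul, ← map_mul]
        congr 1
        rw [SemidirectProduct.inl_aut, mul_assoc (SemidirectProduct.inr e * _), ← map_mul,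
          inv_mul_cancel, map_one, mul_one]
      have hninv : γ (SemidirectProduct.inr e) * γ (SemidirectProduct.inr e)⁻¹ = 1 := by
        rw [← map_mul, mul_inv_cancel, map_one]
      have hninv' : γ (SemidirectProduct.inr e)⁻¹ * γ (SemidirectProduct.inr e) = 1 := by
        rw [← map_mul, inv_mul_cancel, map_one]
      have hcomm' : ∀ v : V, γ (SemidirectProduct.inr e)⁻¹ * γ (SemidirectProduct.inl (φ e v)) =
          γ (SemidirectProduct.inl v) * γ (SemidirectProduct.inr e)⁻¹ := by
        intro v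
        calc γ (SemidirectProduct.inr e)⁻¹ * γ (SemidirectProduct.inl (φ e v))
            = γ (SemidirectProduct.inr e)⁻¹ * (γ (SemidirectProduct.inl (φ e v)) *
              γ (SemidirectProduct.inr e)) * γ (SemidirectProduct.inr e)⁻¹ := by
              rw [mul_assoc, mul_assoc, hninv, mul_one]
          _ = γ (SemidirectProduct.inl v) * γ (SemidirectProduct.inr e)⁻¹ := by
              rw [hcomm, ← mul_assoc, hninv', one_mul]
      -- Θ
      set Θ : A →ₗ[F] P := p.comp (LinearMap.mulLeft F (γ (SemidirectProduct.inr e))) with hΘ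
      have hΘσ : ∀ (v : V) (a : A), Θ (cj F (γ.comp SemidirectProduct.inl) v a) =
          rst σ ι (j v) (Θ a) := by
        intro v a
        show p (γ (SemidirectProduct.inr e) * (γ (SemidirectProduct.inl v) *
          (a * γ (SemidirectProduct.inl v⁻¹)))) =
          σ (ι (j v)) (p (γ (SemidirectProduct.inr e) * a))
        rw [← hpσ]
        congr 1
        show _ = γ (SemidirectProduct.inl (φ e v)) * (γ (SemidirectProduct.inr e) * a) *
          γ (SemidirectProduct.inl v)⁻¹
        rw [← mul_assoc, ← hcomm, map_inv]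
        simp only [mul_assoc]
      have hfix : γ (SemidirectProduct.inr e)⁻¹ * (x : A) ∈
          Fx (cj F (γ.comp SemidirectProduct.inl)) R' := by
        intro v hv
        have h1 : rst σ ι (j v) x = x := hx (j v) hv
        have h2 : ((σ (ι (j v)) x : P) : A) = (x : A) := congrArg Subtype.val h1
        rw [hσ] at h2
        have h3 : γ (SemidirectProduct.inl (φ e v)) * (x : A) *
          γ (SemidirectProduct.inl v)⁻¹ = x := h2
        show γ (SemidirectProduct.inl v) * (γ (SemidirectProduct.inr e)⁻¹ * (x : A) *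
          γ (SemidirectProduct.inl v⁻¹)) = γ (SemidirectProduct.inr e)⁻¹ * (x : A)
        have hiv : (SemidirectProduct.inl v⁻¹ : V ⋊[φ] E) = (SemidirectProduct.inl v)⁻¹ :=
          map_inv _ _
        conv_rhs => rw [← h3]
        rw [hiv]
        simp only [← mul_assoc]
        rw [hcomm']
      obtain ⟨cf, hcf⟩ := hSpn R' hne _ hfix
      have h4 := BK_map (cj F (γ.comp SemidirectProduct.inl)) (rst σ ι) j hjinj Θ hΘσ R' _ hcf
      rw [hmap, map_sub, map_sum] at h4
      have h5 : ∀ u : V, Θ (cf u • (γ.comp SemidirectProduct.inl) u) = 0 := by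
        intro u
        rw [map_smul]
        have h6 : Θ ((γ.comp SemidirectProduct.inl) u) = 0 := by
          apply Subtype.ext
          show cp (γ (SemidirectProduct.inr e) * γ (SemidirectProduct.inl u)) = 0
          rw [← map_mul]
          exact cpr_self γ lam l1 l2 _
        rw [h6, smul_zero]
      rw [Finset.sum_congr rfl fun u _ => h5 u, Finset.sum_const_zero, sub_zero] at h4
      have h7 : Θ (γ (SemidirectProduct.inr e)⁻¹ * (x : A)) = x := by
        show p (γ (SemidirectProduct.inr e) * (γ (SemidirectProduct.inr e)⁻¹ * (x : A))) = x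
        rw [← mul_assoc, hninv, one_mul]
        exact hpi x
      rw [h7] at h4
      exact h4
    · rw [frame_iff hfr C hCp hx]
      intro ω hω'
      exact absurd ⟨ω, hω'⟩ hω
  have hidx : ¬ ℓ ∣ ι.range.index := by
    have h1 : Nat.card ι.range * ι.range.index = Nat.card ((V ⋊[φ] E) × (V ⋊[φ] E)) :=
      Subgroup.card_mul_index _
    have h2 : Nat.card ι.range = Nat.card V * Nat.card V := by
      rw [← Nat.card_congr (MonoidHom.ofInjective hιinj).toEquiv, Nat.card_prod]
    have h3 : Nat.card ((V ⋊[φ] E) × (V ⋊[φ] E)) =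
        (Nat.card V * Nat.card E) * (Nat.card V * Nat.card E) := by
      rw [Nat.card_prod, SemidirectProduct.card]
    have h4 : 0 < Nat.card V := Nat.card_pos
    have h5 : ι.range.index = Nat.card E * Nat.card E := by
      rw [h2, h3] at h1
      have h6 : (Nat.card V * Nat.card V) * ι.range.index =
          (Nat.card V * Nat.card V) * (Nat.card E * Nat.card E) := by
        rw [h1]
        ring
      exact Nat.eq_of_mul_eq_mul_left (Nat.mul_pos h4 h4) h6
    rw [h5]
    intro h6
    rcases (Nat.Prime.dvd_mul hctx.pr).1 h6 with h7 | h7 <;> exact hctx.cop h7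
  obtain ⟨a, ha⟩ := hhgx ℓ F _ (V × V) P σ ι hιinj hidx hHig
  refine ⟨(P.subtype.comp a).comp p, fun x => ?_⟩
  have h8 := ha (p x)
  have h9 : cpr F γ lam x = ((p x : P) : A) := rfl
  rw [h9, ← h8]
  rw [Submodule.coe_sum, Fintype.sum_prod_type]
  apply Finset.sum_congr rfl
  intro g _
  rw [← Equiv.sum_comp (Equiv.inv (V ⋊[φ] E))]
  apply Finset.sum_congr rfl
  intro h _
  rw [hσ]
  show γ g * ((a (p (γ g⁻¹ * x * γ (h⁻¹)⁻¹)) : P) : A) * γ h⁻¹ = _
  have h10 : p (γ g⁻¹ * x * γ (h⁻¹)⁻¹) = σ (g, h)⁻¹ (p x) := hpσ (g, h)⁻¹ x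
  rw [h10]

end Pool.Agent.PFC.H77
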