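import Pool.Agent.PFC.StmtsB6
import Pool.Agent.Helper8_AT8.DPW
import Pool.Agent.Helper50_PP.Ffa
import Pool.Agent.Helper20_PP.Pos1

set_option autoImplicit false

/-!
PFC row CFB: the corner of `F C(V)` at the Brauer image of `j` is `F V`.
-/

open scoped BigOperators

noncomputable section

namespace Pool.Agent.PFC.H77

open Pool.Agent.Helper51_AWC Pool.Agent.Helper79_WRA Pool.Agent.PP Pool.Agent.PP.KF
open Pool.Agent.PP.K9 Pool.Agent.PP.K9.H97 Pool.Agent.PP.H75 Pool.Agent.PP.T3 Pool.Agent.PP.T2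
open Pool.Agent.PP.T8 (Fr rs pw)
open Pool.Agent.PFC

attribute [local instance] Ideal.Quotient.field

section gen

variable {F G : Type} [Field F] [Group G] [Finite G]

/-- the corner supported on the centraliser -/
def LL (C : Subgroup G) (j' : G → F) : Submodule F (G → F) where
  carrier := {x | (∀ g, g ∉ C → x g = 0) ∧ mulF j' x = x ∧ mulF x j' = x}
  add_mem' := by
    rintro a b ⟨h0, h1, h2⟩ ⟨h0', h3, h4⟩
    refine ⟨fun g hg => ?_, by rw [H20.mulF_add, h1, h3], by rw [H20.add_mulF, h2, h4]⟩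
    show a g + b g = 0
    rw [h0 g hg, h0' g hg, add_zero]
  zero_mem' := ⟨fun _ _ => rfl, H20.mulF_zero j', H20.zero_mulF j'⟩
  smul_mem' := by
    rintro c a ⟨h0, h1, h2⟩
    refine ⟨fun g hg => ?_, by rw [H20.mulF_smul, h1], by rw [H20.smul_mulF, h2]⟩
    show c * a g = 0
    rw [h0 g hg, mul_zero]

theorem dl_mem {C : Subgroup G} {j' : G → F} {v : G} (hv : v ∈ C)
    (hj : ∀ x, j' (v * x * v⁻¹) = j' x) {x : G → F} (hx : x ∈ LL C j') :
    mulF (dl F v) x ∈ LL C j' := by
  refine ⟨fun g hg => ?_, ?_, ?_⟩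
  · rw [mulF_dl_l]
    apply hx.1
    intro h
    apply hg
    have := C.mul_mem hv h
    rwa [mul_inv_cancel_left] at this
  · rw [← H20.mulF_assoc, ← dl_comm hj, H20.mulF_assoc, hx.2.1]
  · rw [H20.mulF_assoc, hx.2.2]

theorem dl_one_mul (x : G → F) : mulF (dl F (1 : G)) x = x := by
  rw [mulF_dl_l]
  funext y
  rw [inv_one, one_mul]

/-- left multiplication by the elements of `V` -/
theorem exρ (V C : Subgroup G) (j' : G → F) (hVC : V ≤ C)
    (hj : ∀ v ∈ V, ∀ x, j' (v * x * v⁻¹) = j' x) :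
    ∃ ρ : V →* (LL C j' →ₗ[F] LL C j'), ∀ (v : V) (x : LL C j'),
      ((ρ v x : LL C j') : G → F) = mulF (dl F (v : G)) x := by
  refine ⟨{ toFun := fun v =>
              { toFun := fun x => ⟨mulF (dl F (v : G)) x, dl_mem (hVC v.2) (hj v v.2) x.2⟩
                map_add' := fun x y => Subtype.ext (H20.mulF_add _ _ _)
                map_smul' := fun c x => Subtype.ext (H20.mulF_smul c _ _) }
            map_one' := ?_, map_mul' := ?_ }, fun v x => rfl⟩
  · apply LinearMap.ext
    intro x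
    exact Subtype.ext (dl_one_mul _)
  · intro v w
    apply LinearMap.ext
    intro x
    apply Subtype.ext
    show mulF (dl F ((v : G) * w)) x = mulF (dl F (v : G)) (mulF (dl F (w : G)) x)
    rw [← dl_mul, H20.mulF_assoc]

theorem part1 {ℓ : ℕ} [Fact ℓ.Prime] [CharP F ℓ] (hnka : NkaStmt) (V C : Subgroup G)
    (hab : ∀ a ∈ V, ∀ b ∈ V, a * b = b * a) (hpg : IsPGroup ℓ V) (hVC : V ≤ C) (j' : G → F)
    (hinv : ∀ v ∈ V, ∀ x, j' (v * x * v⁻¹) = j' x) (hjL : j' ∈ LL C j')
    (hcfa : ∀ z ∈ LL C j', ∃ (c : F) (y : G → G → F), (∀ v, y v ∈ LL C j') ∧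
      z = c • j' + ∑ᶠ v : V, (mulF (dl F (v : G)) (y v) - y v)) (x : G → F) (hx : x ∈ LL C j') :
    ∃ c : V → F, x = ∑ᶠ v : V, c v • mulF (dl F (v : G)) j' := by
  classical
  obtain ⟨ρ, hρ⟩ := exρ V C j' hVC hinv
  let iV : CommGroup V :=
    { (inferInstance : Group V) with
      mul_comm := fun a b => Subtype.ext (hab a a.2 b b.2) }
  have hfV : Fintype V := Fintype.ofFinite V
  set jL : LL C j' := ⟨j', hjL⟩ with hjLdef
  set N : Submodule F (LL C j') := Submodule.span F (Set.range fun v : V => ρ v jL) with hN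
  have hjN : jL ∈ N := by
    apply Submodule.subset_span
    refine ⟨1, ?_⟩
    show ρ 1 jL = jL
    rw [map_one]
    rfl
  have hst : ∀ w : V, ∀ y ∈ N, ρ w y ∈ N := by
    intro w y hy
    rw [hN] at hy
    induction hy using Submodule.span_induction with
    | mem y hy =>
      obtain ⟨v, rfl⟩ := hy
      apply Submodule.subset_span
      refine ⟨w * v, ?_⟩
      show ρ (w * v) jL = ρ w (ρ v jL)
      rw [map_mul]
      rfl
    | zero =>
      rw [map_zero]
      exact Submodule.zero_mem _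
    | add a b _ _ ha hb =>
      rw [map_add]
      exact Submodule.add_mem _ ha hb
    | smul c a _ ha =>
      rw [map_smul]
      exact Submodule.smul_mem _ _ ha
  have htop : N = ⊤ := by
    refine (hnka ℓ F V (LL C j') ρ hpg).1 N hst ?_
    intro z
    obtain ⟨c, y, hy, hz⟩ := hcfa z z.2
    refine ⟨c • jL, Submodule.smul_mem _ _ hjN, fun w => ⟨y w, hy w⟩, ?_⟩
    apply Subtype.ext
    rw [hz, finsum_eq_sum_of_fintype, finsum_eq_sum_of_fintype, Submodule.coe_add,
      Submodule.coe_sum]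
    congr 1
    apply Finset.sum_congr rfl
    intro w _
    rw [Submodule.coe_sub, hρ]
  have hxN : (⟨x, hx⟩ : LL C j') ∈ N := by
    rw [htop]
    exact Submodule.mem_top
  rw [hN, Submodule.mem_span_range_iff_exists_fun] at hxN
  obtain ⟨c, hc⟩ := hxN
  refine ⟨c, ?_⟩
  have h1 := congrArg Subtype.val hc
  rw [finsum_eq_sum_of_fintype]
  rw [Submodule.coe_sum] at h1
  refine h1.symm.trans ?_
  apply Finset.sum_congr rfl
  intro v _
  rw [Submodule.coe_smul, hρ]

theorem mulF_sum {ι : Type} (a : G → F) (s : Finset ι) (f : ι → G → F) :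
    mulF a (∑ v ∈ s, f v) = ∑ v ∈ s, mulF a (f v) := by
  classical
  induction s using Finset.induction_on with
  | empty => simp only [Finset.sum_empty, H20.mulF_zero]
  | insert b s hb ih => rw [Finset.sum_insert hb, Finset.sum_insert hb, H20.mulF_add, ih]

theorem part2 {ℓ : ℕ} [Fact ℓ.Prime] [CharP F ℓ] (hnka : NkaStmt) (V : Subgroup G)
    (hab : ∀ a ∈ V, ∀ b ∈ V, a * b = b * a) (hpg : IsPGroup ℓ V) (j' : G → F)
    (hs : ∑ᶠ v : V, j' v ≠ 0) (c : V → F)
    (hc : ∑ᶠ v : V, c v • mulF (dl F (v : G)) j' = 0) : c = 0 := by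
  classical
  let iV : CommGroup V :=
    { (inferInstance : Group V) with
      mul_comm := fun a b => Subtype.ext (hab a a.2 b b.2) }
  have hfV : Fintype V := Fintype.ofFinite V
  by_contra hne
  set Λ : (V → F) →ₗ[F] (G → F) :=
    Fintype.linearCombination F (fun v : V => mulF (dl F (v : G)) j') with hΛ
  have hΛa : ∀ c : V → F, Λ c = ∑ v : V, c v • mulF (dl F (v : G)) j' :=
    fun c => Fintype.linearCombination_apply _ _ _
  have hcK : c ∈ LinearMap.ker Λ := by
    rw [LinearMap.mem_ker, hΛa, ← finsum_eq_sum_of_fintype]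
    exact hc
  set ρ2 : V →* ((V → F) →ₗ[F] (V → F)) :=
    { toFun := fun w =>
        { toFun := fun c v => c (w⁻¹ * v)
          map_add' := fun _ _ => rfl
          map_smul' := fun _ _ => rfl }
      map_one' := by
        apply LinearMap.ext
        intro c
        funext v
        show c (1⁻¹ * v) = c v
        rw [inv_one, one_mul]
      map_mul' := by
        intro w w'
        apply LinearMap.ext
        intro c
        funext v
        show c ((w * w')⁻¹ * v) = c (w'⁻¹ * (w⁻¹ * v))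
        rw [mul_inv_rev, mul_assoc] } with hρ2
  have hst : ∀ w : V, ∀ y ∈ LinearMap.ker Λ, ρ2 w y ∈ LinearMap.ker Λ := by
    intro w y hy
    rw [LinearMap.mem_ker, hΛa] at hy ⊢
    show ∑ v : V, y (w⁻¹ * v) • mulF (dl F (v : G)) j' = 0
    rw [← Equiv.sum_comp (Equiv.mulLeft w)]
    have h1 : ∀ v : V, y (w⁻¹ * (Equiv.mulLeft w v)) •
        mulF (dl F ((Equiv.mulLeft w v : V) : G)) j' =
        mulF (dl F (w : G)) (y v • mulF (dl F (v : G)) j') := by
      intro v
      rw [Equiv.coe_mulLeft, inv_mul_cancel_left, H20.mulF_smul, ← H20.mulF_assoc, dl_mul]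
      rfl
    rw [Finset.sum_congr rfl fun v _ => h1 v, ← mulF_sum, hy, H20.mulF_zero]
  have hKne : LinearMap.ker Λ ≠ ⊥ := by
    intro h
    rw [h] at hcK
    exact hne ((Submodule.mem_bot _).1 hcK)
  obtain ⟨y, hyK, hy0, hyf⟩ := (hnka ℓ F V (V → F) ρ2 hpg).2 (LinearMap.ker Λ) hst hKne
  have hconst : ∀ v, y v = y 1 := by
    intro v
    have h1 := congrFun (hyf v) v
    have h2 : y (v⁻¹ * v) = y v := h1
    rw [inv_mul_cancel] at h2
    exact h2.symm
  have hy1 : y 1 ≠ 0 := by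
    intro h
    apply hy0
    funext v
    rw [hconst v, h]
    rfl
  rw [LinearMap.mem_ker, hΛa] at hyK
  have h4 := congrFun hyK 1
  rw [Finset.sum_apply] at h4
  have h5 : ∀ v : V, (y v • mulF (dl F (v : G)) j') 1 = y 1 * j' ((v⁻¹ : V) : G) := by
    intro v
    rw [hconst v, mulF_dl_l]
    show y 1 * j' ((v : G)⁻¹ * 1) = _
    rw [mul_one]
    rfl
  rw [Finset.sum_congr rfl fun v _ => h5 v, ← Finset.mul_sum] at h4
  have h6 : ∑ v : V, j' ((v⁻¹ : V) : G) = ∑ v : V, j' (v : G) :=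
    Equiv.sum_comp (Equiv.inv V) (fun v : V => j' (v : G))
  rw [h6, ← finsum_eq_sum_of_fintype] at h4
  have h7 : y 1 * ∑ᶠ v : V, j' v = 0 := h4
  rcases mul_eq_zero.1 h7 with h8 | h8
  · exact hy1 h8
  · exact hs h8

end gen

theorem cfb (hcfa : CfaStmt) (hnka : NkaStmt) (hlmb : LmbStmt) (hjun : JunStmt) : CfbStmt := by
  intro ℓ _ M _ hM G _ _ e V γ hL j hj
  have hgood : GoodF ℓ (FF M) := H50.fld ℓ Fact.out M hM
  have hch : CharP (FF M) ℓ := hgood.char
  have hpg : IsPGroup ℓ V := hL.tp.pg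
  have hVC : V ≤ Subgroup.centralizer (V : Set G) := by
    intro v hv
    rw [Subgroup.mem_centralizer_iff]
    intro w hw
    exact hL.ab w hw v hv
  have hbr_in : ∀ t, t ∈ Subgroup.centralizer (V : Set G) → br V j t = j t := by
    intro t ht
    unfold br
    rw [if_pos ht]
  have hbr_out : ∀ t, t ∉ Subgroup.centralizer (V : Set G) → br V j t = 0 := by
    intro t ht
    unfold br
    rw [if_neg ht]
  have hjinv : ∀ v ∈ V, ∀ x, br V j (v * x * v⁻¹) = br V j x := by
    intro v hv x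
    by_cases hx : x ∈ Subgroup.centralizer (V : Set G)
    · have h1 : v * x * v⁻¹ ∈ Subgroup.centralizer (V : Set G) :=
        (Subgroup.centralizer (V : Set G)).mul_mem ((Subgroup.centralizer (V : Set G)).mul_mem
          (hVC hv) hx) ((Subgroup.centralizer (V : Set G)).inv_mem (hVC hv))
      rw [hbr_in _ h1, hbr_in _ hx, hj.iv v hv x]
    · rw [hbr_out x hx, hbr_out]
      intro h1
      apply hx
      have h2 := (Subgroup.centralizer (V : Set G)).mul_mem
        ((Subgroup.centralizer (V : Set G)).mul_mem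
          ((Subgroup.centralizer (V : Set G)).inv_mem (hVC hv)) h1) (hVC hv)
      have h3 : v⁻¹ * (v * x * v⁻¹) * v = x := by group
      rwa [h3] at h2
  have hjj : mulF (br V j) (br V j) = br V j := by
    rw [← H20.br_mul_inv hgood V hpg hj.iv hj.iv, hj.id]
  have hbrs : ∑ᶠ v : V, br V j v = ∑ᶠ v : V, j v := by
    apply finsum_congr
    intro v
    exact hbr_in v (hVC v.2)
  have part3 : ∑ᶠ v : V, j v ≠ 0 := by
    obtain ⟨q, hq, h1⟩ := hlmb ℓ M hM G e V γ hL
    obtain ⟨κ, hκ⟩ := T8.H8.nonempty_of_blk hL.gam.blk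
    have h2 := h1 κ hκ (br V j) hbr_out (hjun ℓ M hM G e V γ hL j hj).2.2
    have h4 : ∑ᶠ t : Subgroup.centralizer (V : Set G), br V j t * rr M (κ t) =
        ∑ᶠ t : Subgroup.centralizer (V : Set G), j t * rr M (κ t) := by
      apply finsum_congr
      intro t
      rw [hbr_in t t.2]
    rw [hbrs, h4] at h2
    rw [h2]
    exact mul_ne_zero hq (hj.nz κ hκ)
  refine ⟨?_, ?_, part3⟩
  · intro x hx0 hx1 hx2
    exact part1 (ℓ := ℓ) hnka V (Subgroup.centralizer (V : Set G)) hL.ab hpg hVC (br V j) hjinv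
      ⟨hbr_out, hjj, hjj⟩ (fun z hz => hcfa ℓ M hM G e V γ hL j hj z hz.1 hz.2.1 hz.2.2) x
      ⟨hx0, hx1, hx2⟩
  · intro c hc
    refine part2 (ℓ := ℓ) hnka V hL.ab hpg (br V j) ?_ c hc
    rw [hbrs]
    exact part3

end Pool.Agent.PFC.H77
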