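import Pool.Agent.PFC.StmtsB4b
import Pool.Agent.PFC.B4.Key
import Pool.Agent.Helper77_PFC.TRSa

set_option autoImplicit false

/-!
PFC row QSB: a summand of a permutation module has split Brauer quotients.
-/

open scoped BigOperators TensorProduct

noncomputable section

namespace Pool.Agent.PFC.H77

open Pool.Agent.PFC

section

variable {F V M : Type} [Field F] [Group V] [AddCommGroup M] [Module F M]

theorem PT_comp (ρ : V →* (M →ₗ[F] M)) (Q : Subgroup V) (T : M →ₗ[F] M)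
    (hT : ∀ v m, T (ρ v m) = ρ v (T m)) (X : M →ₗ[F] M) (hX : X ∈ PT ρ Q) :
    X ∘ₗ T ∈ PT ρ Q := by
  unfold PT at hX
  induction hX using Submodule.span_induction with
  | mem X hX =>
    obtain ⟨K, S, h, hK, hS, hh, hX⟩ := hX
    apply Submodule.subset_span
    refine ⟨K, S, h ∘ₗ T, hK, hS, fun k hk m => ?_, fun m => ?_⟩
    · show ρ k (h (T m)) = h (T (ρ k m))
      rw [hT, hh k hk]
    · show X (T m) = ∑ x ∈ S, ρ x (h (T (ρ x⁻¹ m)))
      rw [hX]
      apply Finset.sum_congr rfl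
      intro x _
      rw [hT]
  | zero =>
    rw [LinearMap.zero_comp]
    exact Submodule.zero_mem _
  | add a b _ _ ha hb =>
    rw [LinearMap.add_comp]
    exact Submodule.add_mem _ ha hb
  | smul r a _ ha =>
    rw [LinearMap.smul_comp]
    exact Submodule.smul_mem _ _ ha

/-- the conjugation representation on the endomorphisms -/
def tau (ρ : V →* (M →ₗ[F] M)) : V →* ((M →ₗ[F] M) →ₗ[F] (M →ₗ[F] M)) where
  toFun := fun v =>
    { toFun := fun h => ρ v ∘ₗ h ∘ₗ ρ v⁻¹
      map_add' := fun a b => by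
        apply LinearMap.ext
        intro m
        show ρ v (a (ρ v⁻¹ m) + b (ρ v⁻¹ m)) = ρ v (a (ρ v⁻¹ m)) + ρ v (b (ρ v⁻¹ m))
        rw [map_add]
      map_smul' := fun c a => by
        apply LinearMap.ext
        intro m
        show ρ v (c • a (ρ v⁻¹ m)) = c • ρ v (a (ρ v⁻¹ m))
        rw [map_smul] }
  map_one' := by
    apply LinearMap.ext
    intro h
    apply LinearMap.ext
    intro m
    show ρ 1 (h (ρ 1⁻¹ m)) = h m
    rw [inv_one, map_one]
    rfl
  map_mul' := by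
    intro v w
    apply LinearMap.ext
    intro h
    apply LinearMap.ext
    intro m
    show ρ (v * w) (h (ρ (v * w)⁻¹ m)) = ρ v (ρ w (h (ρ w⁻¹ (ρ v⁻¹ m))))
    rw [mul_inv_rev, map_mul, map_mul]
    rfl

theorem tau_apply (ρ : V →* (M →ₗ[F] M)) (v : V) (h : M →ₗ[F] M) (m : M) :
    tau ρ v h m = ρ v (h (ρ v⁻¹ m)) := rfl

theorem inv_act (ρ : V →* (M →ₗ[F] M)) (v : V) (m : M) : ρ v⁻¹ (ρ v m) = m := by
  have h : ρ v⁻¹ (ρ v m) = (ρ v⁻¹ * ρ v) m := rfl
  rw [h, ← map_mul, inv_mul_cancel, map_one]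
  rfl

theorem act_inv (ρ : V →* (M →ₗ[F] M)) (v : V) (m : M) : ρ v (ρ v⁻¹ m) = m := by
  have h : ρ v (ρ v⁻¹ m) = (ρ v * ρ v⁻¹) m := rfl
  rw [h, ← map_mul, mul_inv_cancel, map_one]
  rfl

theorem BK_tau (ρ : V →* (M →ₗ[F] M)) (Q : Subgroup V) : BK (tau ρ) Q ≤ PT ρ Q := by
  unfold BK PT
  apply Submodule.span_mono
  rintro _ ⟨K, S, h, hK, hS, hh, rfl⟩
  refine ⟨K, S, h, hK, hS, fun k hk m => ?_, fun m => ?_⟩
  · have h1 : tau ρ k h = h := hh k hk
    have h2 := LinearMap.congr_fun h1 (ρ k m)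
    rw [tau_apply, inv_act] at h2
    exact h2
  · rw [LinearMap.sum_apply]
    rfl

end

theorem qsb : QsbStmt := by
  intro ℓ _ F V M _ _ _ _ _ _ ρ hpg hPS Q
  classical
  obtain ⟨Ω, _, _, b, c, hfr, -⟩ := hPS
  have hQ : IsPGroup ℓ Q := hpg.to_subgroup Q
  -- the sum over the fixed points
  set T : M →ₗ[F] M := ∑ ω ∈ fp Q Ω, (c ω).smulRight (b ω) with hTdef
  have hTa : ∀ m, T m = ∑ ω ∈ fp Q Ω, c ω m • b ω := by
    intro m
    rw [hTdef, LinearMap.sum_apply]
    rfl
  have hcinv : ∀ (v : V) (ω : Ω) (m : M), c (v • ω) m = c ω (ρ v⁻¹ m) := by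
    intro v ω m
    have h1 := hfr.2.1 v ω (ρ v⁻¹ m)
    rw [act_inv] at h1
    exact h1
  have hfp : ∀ (v : V) (ω : Ω), v • ω ∈ fp Q Ω ↔ ω ∈ fp Q Ω := by
    intro v ω
    rw [mem_fp, mem_fp]
    constructor
    · intro h q hq
      have h1 := h q hq
      rw [← mul_smul, mul_comm q v, mul_smul] at h1
      exact MulAction.injective v h1
    · intro h q hq
      rw [← mul_smul, mul_comm q v, mul_smul, h q hq]
  have hTρ : ∀ v m, T (ρ v m) = ρ v (T m) := by
    intro v m
    rw [hTa, hTa, map_sum]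
    have h1 : ∀ ω ∈ fp Q Ω, ρ v (c ω m • b ω) = c (v • ω) (ρ v m) • b (v • ω) := by
      intro ω _
      rw [map_smul, hfr.1, hfr.2.1]
    rw [Finset.sum_congr rfl h1]
    symm
    apply Finset.sum_bij (fun ω _ => v • ω)
    · intro ω hω
      exact (hfp v ω).2 hω
    · intro ω _ ω' _ h
      exact MulAction.injective v h
    · intro ω hω
      refine ⟨v⁻¹ • ω, (hfp v⁻¹ ω).2 hω, ?_⟩
      rw [smul_inv_smul]
    · intro ω _
      rfl
  have hTfx : ∀ m, T m ∈ Fx ρ Q := by
    intro m q hq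
    rw [hTa, map_sum]
    apply Finset.sum_congr rfl
    intro ω hω
    rw [map_smul, ← hfr.1, (mem_fp Q Ω ω).1 hω q hq]
  have hTBK : ∀ m ∈ BK ρ Q, T m = 0 := by
    intro m hm
    rw [hTa]
    apply Finset.sum_eq_zero
    intro ω hω
    rw [frame_BK hfr Q hQ hm ω ((mem_fp Q Ω ω).1 hω), zero_smul]
  have hT3 : ∀ m, T (T (T m)) = T (T m) := by
    intro m
    have h1 := frame_sub hfr Q (hTfx m)
    rw [← hTa] at h1
    have h2 := hTBK _ h1
    rw [map_sub, sub_eq_zero] at h2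
    exact h2.symm
  -- D
  have hD : LinearMap.id - T ∈ PT ρ Q := by
    apply BK_tau
    have h1 : LinearMap.id - T = ∑ ω ∈ Finset.univ \ fp Q Ω, (c ω).smulRight (b ω) := by
      rw [sub_eq_iff_eq_add, Finset.sum_sdiff (Finset.subset_univ _)]
      apply LinearMap.ext
      intro m
      rw [LinearMap.sum_apply]
      exact (hfr.2.2 m).symm
    rw [h1]
    apply B5a.H77.trs F V (M →ₗ[F] M) Ω (tau ρ) Q (fun ω => (c ω).smulRight (b ω))
    · intro ω hω q _
      rw [Finset.mem_sdiff] at hω ⊢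
      exact ⟨Finset.mem_univ _, fun h => hω.2 ((hfp q ω).1 h)⟩
    · intro ω hω h
      rw [Finset.mem_sdiff] at hω
      exact hω.2 ((mem_fp Q Ω ω).2 h)
    · intro q _ ω
      apply LinearMap.ext
      intro m
      rw [tau_apply]
      show c (q • ω) m • b (q • ω) = ρ q (c ω (ρ q⁻¹ m) • b ω)
      rw [hcinv, hfr.1, map_smul]
  -- the idempotent
  set e : M →ₗ[F] M := T ∘ₗ T with he
  have hea : ∀ m, e m = T (T m) := fun _ => rfl
  have hee : ∀ m, e (e m) = e m := by
    intro m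
    rw [hea, hea, hT3, hT3]
  have heρ : ∀ v m, e (ρ v m) = ρ v (e m) := by
    intro v m
    rw [hea, hea, hTρ, hTρ]
  have hst : ∀ v : V, ∀ x ∈ LinearMap.range e, ρ v x ∈ LinearMap.range e := by
    rintro v x ⟨m, rfl⟩
    exact ⟨ρ v m, heρ v m⟩
  refine ⟨LinearMap.range e, inferInstance, inferInstance,
    { toFun := fun v => (ρ v).restrict (hst v)
      map_one' := ?_, map_mul' := ?_ }, LinearMap.rangeRestrict e, (LinearMap.range e).subtype, ?_⟩
  · apply LinearMap.ext
    intro x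
    apply Subtype.ext
    show ρ 1 x = x
    rw [map_one]
    rfl
  · intro v w
    apply LinearMap.ext
    intro x
    apply Subtype.ext
    show ρ (v * w) x = ρ v (ρ w x)
    rw [map_mul]
    rfl
  · refine ⟨?_, ?_, ?_, ?_, ?_⟩
    · rintro ⟨_, m, rfl⟩
      apply Subtype.ext
      exact hee m
    · intro v m
      apply Subtype.ext
      exact heρ v m
    · intro v n
      rfl
    · rintro q hq ⟨_, m, rfl⟩
      apply Subtype.ext
      exact hTfx (T m) q hq
    · have h1 : LinearMap.id - (LinearMap.range e).subtype ∘ₗ LinearMap.rangeRestrict e =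
          (LinearMap.id - T) + (LinearMap.id - T) ∘ₗ T := by
        apply LinearMap.ext
        intro m
        show m - T (T m) = (m - T m) + (T m - T (T m))
        abel
      rw [h1]
      exact Submodule.add_mem _ hD (PT_comp ρ Q T hTρ _ hD)

end Pool.Agent.PFC.H77
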